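import Mathlib
import Pool.Agent.Helper98.Pi.Defs
import Pool.Agent.Helper98.Pi.Final

set_option autoImplicit false

universe u

namespace Pool.Agent.Results.MP_a94a03_ag.AffineCharP

open EtalePi

/-- Let `K` be a finite field or a global function field, `X = Spec A` an affine scheme over `K`
(in particular any smooth affine curve, isotrivial or not), `x` a `K`-rational point of `X`.  The
only element of the etale fundamental group of `X_Ω`, `Ω` a separable closure of `K`, fixed by
`Gal(Ω/K)` acting through the section defined by `x`, is the identity.  More generally this holds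
for every field `K` of characteristic `p` such that every finite extension of `K` inside `Ω` has
an element that is not of the form `u^p - u`. -/
theorem result :
    (∀ (K A Ω : Type u) [Field K] [Finite K] [CommRing A] [Algebra K A] [Field Ω] [Algebra K Ω]
      [IsSepClosure K Ω] (x : A →ₐ[K] K) (γ : PiOne (geomPoint x Ω)),
      IsGalFixed x γ → γ = 1) ∧
    (∀ (k K A Ω : Type u) [Field k] [Finite k] [Field K] [Algebra (RatFunc k) K]
      [FunctionField k K] [CommRing A] [Algebra K A] [Field Ω] [Algebra K Ω]
      [IsSepClosure K Ω] (x : A →ₐ[K] K) (γ : PiOne (geomPoint x Ω)),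
      IsGalFixed x γ → γ = 1) ∧
    (∀ (p : ℕ) [Fact p.Prime] (K A Ω : Type u) [Field K] [CharP K p] [CommRing A] [Algebra K A]
      [Field Ω] [Algebra K Ω] [IsSepClosure K Ω]
      (_ : ∀ K' : IntermediateField K Ω, FiniteDimensional K K' →
        ∃ β : K', ∀ u : K', u ^ p - u ≠ β)
      (x : A →ₐ[K] K) (γ : PiOne (geomPoint x Ω)),
      IsGalFixed x γ → γ = 1) :=
  ⟨fun _ _ _ _ _ _ _ _ _ _ x γ h => eq_one_finite x γ h,
    fun k _ _ _ _ _ _ _ _ _ _ _ _ _ x γ h => eq_one_functionField k x γ h,
    fun p _ _ _ _ _ _ _ _ _ _ _ hAS x γ h => eq_one_of_isGalFixed p hAS x γ h⟩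

end Pool.Agent.Results.MP_a94a03_ag.AffineCharP
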