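import Mathlib
import Pool.Agent.Pi2.GroupDefs
import Pool.Agent.Pi2.Group
import Pool.Agent.Pi2.IMP

universe u

namespace Pool.Agent.Results.MP_a94a03_ag.GaloisFixed

open PiCurve

/-- Let `K` be a finite field, a number field or a global function field, `F/K` a function field
of one variable, `S` a finite set of places of `F/K`, `X` the complement of `S` in the regular
proper model of `F/K` (every smooth curve over `K` is of this form). Let `x` be a `K`-rational
point of `X` and `W` a place of the algebraic closure `Ω` of `F` above `x`. Then the section `s`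
of the fundamental group `PiOne K Ω S` of `X` over the Galois group of `K` attached to `W` exists
and is unique, and the only element of the geometric fundamental group `PiGeom K Ω S` fixed by the
conjugation action of the Galois group of `K` through `s` is the identity. -/
theorem result {K F Ω : Type u} [Field K] [Field F] [Algebra K F] [Field Ω] [Algebra F Ω]
    [Algebra K Ω] [IsScalarTower K F Ω] [IsAlgClosed Ω] [Algebra.IsAlgebraic F Ω]
    (hK : Finite K ∨ NumberField K ∨ IsGlobalFunctionField K)
    (hF : IsFunctionField K F) (S : Finset (ValuationSubring F))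
    (W : ValuationSubring Ω) (hW : IsPlace K W) (hS : W.comap (algebraMap F Ω) ∉ S)
    (hx : IsRational K (W.comap (algebraMap F Ω))) :
    ∃ s : GalK K Ω →* PiOne K Ω S,
      (IsSectionOf K Ω S W s ∧ ∀ s' : GalK K Ω →* PiOne K Ω S,
        IsSectionOf K Ω S W s' → s' = s) ∧
      (∀ σ : GalK K Ω, toGal K Ω S (s σ) = σ) ∧
      ∀ γ ∈ PiGeom K Ω S, (∀ σ : GalK K Ω, s σ * γ * (s σ)⁻¹ = γ) → γ = 1 := by
  obtain ⟨s, hs, huniq⟩ := existsUnique_section (K := K) (S := S) hW hS hx
  have hmain : NoFixed (F := F) K Ω S := by
    rcases hK with hK | hK | ⟨k, _, _, _, hk⟩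
    · exact noFixed_perfect fv_finite hF S
    · have hclosed : IsAlgClosed (algebraicClosure K Ω) :=
        (algebraicClosure.isAlgClosure K Ω).isAlgClosed
      exact noFixed_perfect fv_numberField hF S
    · exact noFixed_functionField hk hF S
  exact ⟨s, ⟨hs, huniq⟩, toGal_section hx hs, fun γ hγ hfix => hmain.section hW hS hx hs hγ hfix⟩

end Pool.Agent.Results.MP_a94a03_ag.GaloisFixed
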